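import Pool.Agent.helper53.EXT.SpecM

/-!
# MP_561ff4_al, row `ftm:NMA`: the calculus of the root elements of `F₄(K)` in characteristic 2
-/

set_option autoImplicit false

open Finset

namespace Pool.Agent.EXT

open Pool.Agent.EXC

theorem NMA_sn (K : Type) [Field K] (h2 : (2 : K) = 0) (hRTF : RTF_stmt) (v : Fin 6 → ℤ) : ((sn v : ℤ) : K) = 1 := by
  obtain ⟨-, -, -, -, -, -, h, -⟩ := hRTF
  rcases h v with h | h
  · rw [h, Int.cast_one]
  · rw [h, Int.cast_neg, Int.cast_one]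
    have h3 : (1 : K) + 1 = 0 := by rw [one_add_one_eq_two]; exact h2
    exact (eq_neg_of_add_eq_zero_left h3).symm

theorem NMA (hRTF : RTF_stmt) (hSGR : SGR_stmt) (hJCM : JCM_stmt) : NMA_stmt := by
  intro K _ h2
  have hnb : ∀ α, ip C6 α α = 2 → ∃ β, ip C6 β β = 2 ∧ ip C6 α β = -1 := (f_NBR 6 C6 1 th ![0, 2, 3, 4, 5] f_DE6.2).1
  have hG := GXC 6 C6 K hnb
  have hk := k_XGS 6 C6 K hnb
  have hsn := NMA_sn K h2 hRTF
  obtain ⟨hip, hpp, -, -, -, -, -, -, -, -, -, -, hort, -, -⟩ := hRTF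
  have hL : ∀ α, pv α = α → ∀ t : K, Rt α t = XG C6 α t := fun α h t => by
    unfold Rt
    rw [if_pos h]
  have hS : ∀ α, pv α ≠ α → ∀ t : K, Rt α t = XG C6 α t * XG C6 (pv α) t := fun α h t => by
    unfold Rt
    rw [if_neg h]
  have hpr : ∀ α, ip C6 α α = 2 → ip C6 (pv α) (pv α) = 2 := fun α h => by rw [hip]; exact h
  have hcS : ∀ α, SR α → ∀ s t : K, XG C6 α s * XG C6 (pv α) t = XG C6 (pv α) t * XG C6 α s := fun α h s t =>
    (hG α (pv α) h.1 (hpr α h.1) s t).2.2.1 (by rw [hort α h])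
  have hX : ∀ α, LR α → ∀ t : K, IsX C6 (E C6 α) t (Rt α t) := fun α h t => by
    rw [hL α h.2]
    exact (hk α h.1 t).1
  have hXS : ∀ α, SR α → ∀ t : K, IsS (RingEquiv.refl K) α t (Rt α t) := fun α h t v => by
    rw [hS α h.2]
    have e1 : (XG C6 α t * XG C6 (pv α) t) v = XG C6 α t (XG C6 (pv α) t v) := rfl
    rw [e1, (hk α h.1 t).1, (hk (pv α) (hpr α h.1) t).1, hsn, one_mul]
    rfl
  refine ⟨?_, ?_, ?_, ?_⟩
  · intro α hα
    by_cases hp : pv α = α
    · refine ⟨fun s t => ?_, ?_, fun t => ?_, fun t => ?_⟩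
      · rw [hL α hp, hL α hp, hL α hp]
        exact (hG α α hα hα s t).1
      · rw [hL α hp]
        exact (hG α α hα hα 0 0).2.1
      · rw [hp]
      · exact Subgroup.subset_closure (Or.inl ⟨α, t, ⟨hα, hp⟩, rfl, hX α ⟨hα, hp⟩ t⟩)
    · have hSR : SR α := ⟨hα, hp⟩
      refine ⟨fun s t => ?_, ?_, fun t => ?_, fun t => ?_⟩
      · rw [hS α hp, hS α hp, hS α hp, (hG α α hα hα s t).1, (hG (pv α) (pv α) (hpr α hα) (hpr α hα) s t).1]
        have e1 := hcS α hSR t s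
        calc XG C6 α s * XG C6 α t * (XG C6 (pv α) s * XG C6 (pv α) t) = XG C6 α s * (XG C6 α t * XG C6 (pv α) s) * XG C6 (pv α) t := by
              simp only [mul_assoc]
          _ = XG C6 α s * (XG C6 (pv α) s * XG C6 α t) * XG C6 (pv α) t := by rw [e1]
          _ = XG C6 α s * XG C6 (pv α) s * (XG C6 α t * XG C6 (pv α) t) := by simp only [mul_assoc]
      · rw [hS α hp, (hG α α hα hα 0 0).2.1, (hG (pv α) (pv α) (hpr α hα) (hpr α hα) 0 0).2.1, mul_one]
      · have hp' : pv (pv α) ≠ pv α := fun h => hp (by rw [hpp] at h; exact h.symm)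
        rw [hS α hp, hS (pv α) hp', hpp, hcS α hSR t t]
      · exact Subgroup.subset_closure (Or.inr ⟨α, t, hSR, hXS α hSR t⟩)
  · intro α hα t g
    constructor
    · intro hg
      refine LinearEquiv.ext fun v => ?_
      rw [hg v, hX α hα t v]
    · rintro rfl
      exact hX α hα t
  · intro α hα t g
    constructor
    · intro hg
      refine LinearEquiv.ext fun v => ?_
      rw [hg v, hXS α hα t v]
    · rintro rfl
      exact hXS α hα t
  · intro α β hα hβ hcm s t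
    have hcm' : 0 ≤ ip C6 α β + ip C6 α (pv β) := hcm
    by_cases hpa : pv α = α
    · have e1 : ip C6 α (pv β) = ip C6 α β := by
        have e2 := hip α β
        rw [hpa] at e2
        exact e2
      rw [e1] at hcm'
      by_cases hpb : pv β = β
      · rw [hL α hpa, hL β hpb]
        exact (hG α β hα hβ s t).2.2.1 (by linarith)
      · have e3 : 0 ≤ ip C6 β α := by
          rw [ip_comm]
          linarith
        exact ((hJCM K h2).2 β α ⟨hβ, hpb⟩ ⟨hα, hpa⟩ e3 t s _ _ (hXS β ⟨hβ, hpb⟩ t) (hX α ⟨hα, hpa⟩ s)).symm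
    · by_cases hpb : pv β = β
      · rw [hpb] at hcm'
        exact (hJCM K h2).2 α β ⟨hα, hpa⟩ ⟨hβ, hpb⟩ (by linarith) s t _ _ (hXS α ⟨hα, hpa⟩ s) (hX β ⟨hβ, hpb⟩ t)
      · exact (hJCM K h2).1 α β ⟨hα, hpa⟩ ⟨hβ, hpb⟩ hcm' s t _ _ (hXS α ⟨hα, hpa⟩ s) (hXS β ⟨hβ, hpb⟩ t)

end Pool.Agent.EXT
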